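import Pool.Agent.H19.SYA.TA

/-!
# Row APE: numerical semigroups
-/

set_option autoImplicit false

namespace Pool.Agent.H15.SYA

open Pool.Agent.H19.SYA

theorem pf_APE : T_APE := by
  intro S e ω h0 hadd hdvd hbig hω hω0 he
  obtain ⟨M, hM⟩ := hbig
  obtain ⟨m, hm⟩ := hdvd ω hω
  have hm0 : 0 < m := by
    rcases Nat.eq_zero_or_pos m with h | h
    · rw [h, mul_zero] at hm
      omega
    · exact h
  have hmul : ∀ n ∈ S, ∀ j : ℕ, n + j * ω ∈ S := by
    intro n hn j
    induction j with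
    | zero => simpa using hn
    | succ j ih =>
      have := hadd _ ih _ hω
      rwa [show n + (j + 1) * ω = n + j * ω + ω by ring]
  -- the least element in every class
  have hex : ∀ i : ℕ, ∃ n, n ∈ S ∧ ∃ j : ℕ, n = e * i + j * ω := by
    intro i
    refine ⟨e * i + M * ω, hM _ ?_ ?_, M, rfl⟩
    · have : M * 1 ≤ M * ω := Nat.mul_le_mul_left M hω0
      omega
    · rw [hm]
      exact Dvd.intro (i + M * m) (by ring)
  classical
  let g : ℕ → ℕ := fun i => sInf {n | n ∈ S ∧ n % ω = (e * i) % ω}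
  have hne : ∀ i, {n | n ∈ S ∧ n % ω = (e * i) % ω}.Nonempty := by
    intro i
    obtain ⟨n, hn, j, hj⟩ := hex i
    exact ⟨n, hn, by rw [hj, Nat.add_mul_mod_self_right]⟩
  have hg : ∀ i, g i ∈ S ∧ g i % ω = (e * i) % ω := fun i => Nat.sInf_mem (hne i)
  have hgmin : ∀ i n, n ∈ S → n % ω = (e * i) % ω → g i ≤ n := fun i n h1 h2 =>
    Nat.sInf_le ⟨h1, h2⟩
  have hset : {n : ℕ | n ∈ S ∧ ¬ ∃ t ∈ S, t + ω = n} = g '' (Set.Iio m) := by
    ext n
    constructor
    · rintro ⟨hn, hn2⟩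
      obtain ⟨a, ha⟩ := hdvd n hn
      refine ⟨a % m, Nat.mod_lt _ hm0, ?_⟩
      have h1 : n % ω = (e * (a % m)) % ω := by
        rw [ha, hm, Nat.mul_mod_mul_left, Nat.mul_mod_mul_left, Nat.mod_mod]
      have h2 := hgmin (a % m) n hn h1
      obtain ⟨h3, h4⟩ := hg (a % m)
      by_contra hcon
      have hlt : g (a % m) < n := lt_of_le_of_ne h2 hcon
      have h5 : g (a % m) ≡ n [MOD ω] := by
        show g (a % m) % ω = n % ω
        rw [h4, h1]
      obtain ⟨c, hc⟩ := (Nat.modEq_iff_dvd' h2).mp h5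
      have hc0 : c ≠ 0 := by
        rintro rfl
        rw [mul_zero] at hc
        omega
      obtain ⟨c', rfl⟩ := Nat.exists_eq_succ_of_ne_zero hc0
      apply hn2
      refine ⟨g (a % m) + c' * ω, hmul _ h3 c', ?_⟩
      have : n = g (a % m) + ω * (c' + 1) := by
        have := hc
        rw [Nat.succ_eq_add_one] at this
        omega
      rw [this]
      ring
    · rintro ⟨i, hi, rfl⟩
      obtain ⟨h3, h4⟩ := hg i
      refine ⟨h3, ?_⟩
      rintro ⟨t, ht, ht2⟩
      have h5 := hgmin i t ht (by rw [← h4, ← ht2, Nat.add_mod_right])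
      omega
  have hinj : Set.InjOn g (Set.Iio m) := by
    intro i hi j hj hij
    have h1 : (e * i) % ω = (e * j) % ω := by
      rw [← (hg i).2, ← (hg j).2, hij]
    rw [hm, Nat.mul_mod_mul_left, Nat.mul_mod_mul_left, Nat.mod_eq_of_lt hi,
      Nat.mod_eq_of_lt hj] at h1
    exact Nat.eq_of_mul_eq_mul_left he h1
  rw [hset]
  refine ⟨(Set.finite_Iio m).image g, ?_⟩
  rw [hinj.ncard_image]
  have h6 : (Set.Iio m).ncard = m := by
    rw [Set.ncard_eq_toFinset_card']
    simp
  rw [h6, hm]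
  ring

end Pool.Agent.H15.SYA
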