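import Pool.Agent.H19.SYA.TA
import Pool.Agent.H2.ST.Basic

/-!
# Row GN4: generation by `K`, `H` and `S`
-/

set_option autoImplicit false

namespace Pool.Agent.H15.SYA

open MvPolynomial Pool.Agent.H2.ST Pool.Agent.H15.TG Pool.Agent.H19.SYA

theorem pf_GN4 (hGN0 : T_GN0) : T_GN4 := by
  intro k _ _ _ W H y w K p q D S α β r M hy hK hC hp hq hD hpD hD0 hS hpS hqS F
  obtain ⟨p', hp'⟩ := hpD
  have hp'K : p' ∈ K := (hK.fc p p' (by rw [← hp']; exact hD0) (by rw [← hp']; exact hD)).2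
  have hbr : br q (D ^ M) = 0 := by
    rw [br_pow, hK.cm q hq D hD, mul_zero]
  have hSl : Sl W p q S r := ⟨hS, hpS, by rw [hqS]; exact pow_ne_zero _ hD0, by rw [hqS, hbr]⟩
  obtain ⟨N, hN⟩ := hGN0 k W H y w p q S α β r hy hC hSl F
  refine ⟨N * (M + 1), ?_⟩
  have hsub : ({g : Pol k 2 | br p g = 0 ∧ br q g = 0} ∪ {H, S}) ⊆
      ((K : Set (Pol k 2)) ∪ {H, S}) := by
    apply Set.union_subset_union_left
    intro x hx
    exact hK.mx p q α β hp hq hC x hx.1 hx.2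
  have h1 := Algebra.adjoin_mono hsub hN
  have h2 : D ^ (N * (M + 1)) * F = p' ^ N * ((p * br q S) ^ N * F) := by
    rw [hqS, mul_comm N, pow_mul, pow_succ]
    conv_lhs => rw [show D ^ M * D = p' * (p * D ^ M) by nth_rewrite 2 [hp']; ring]
    rw [mul_pow, mul_assoc]
  rw [h2]
  exact Subalgebra.mul_mem _ (Subalgebra.pow_mem _
    (Algebra.subset_adjoin (Set.mem_union_left _ hp'K)) N) h1

end Pool.Agent.H15.SYA
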