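import Pool.Agent.H19.SYA.TB
import Pool.Agent.H2.ST.Basic
import Pool.Agent.H2.ST.Basic2

/-!
# Row INE: the basic inequality
-/

set_option autoImplicit false

namespace Pool.Agent.H15.SYA

open MvPolynomial Pool.Agent.H2.ST Pool.Agent.H15.TG Pool.Agent.H19.SYA

section general

variable {k : Type} [Field k] {A : Type} [CommRing A] [Algebra k A] {W : ℤ → Submodule k A}

/-- polynomials in homogeneous elements -/
theorem aeval_mem_gr (h : Gr W) {n : ℕ} (v : Fin n → A) (u : Fin n → ℤ) (hv : ∀ i, v i ∈ W (u i))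
    {P : MvPolynomial (Fin n) k} {t : ℤ} (hP : IsWeightedHomogeneous u P t) :
    aeval v P ∈ W t := by
  rw [aeval_def, eval₂_eq']
  refine Submodule.sum_mem _ fun d hd => ?_
  have h1 := hP (mem_support_iff.mp hd)
  have h2 : ∏ i, v i ^ d i ∈ W (∑ i, d i • u i) :=
    prod_mem_gr h Finset.univ (fun i => d i • u i) (fun i => v i ^ d i)
      (fun i _ => pow_mem_gr h (hv i) (d i))
  rw [Finsupp.weight_apply, Finsupp.sum_fintype _ _ (by simp)] at h1
  rw [h1] at h2
  rw [← Algebra.smul_def]
  exact Submodule.smul_mem _ _ h2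

/-- a polynomial in algebraically independent homogeneous elements with homogeneous value -/
theorem wh_of_aeval_mem (h : Gr W) {n : ℕ} (v : Fin n → A) (u : Fin n → ℤ)
    (hv : ∀ i, v i ∈ W (u i)) (hi : AlgebraicIndependent k v) {P : MvPolynomial (Fin n) k} {t : ℤ}
    (hP : aeval v P ∈ W t) : IsWeightedHomogeneous u P t := by
  have hfin := weightedHomogeneousComponent_finsupp (w := u) (φ := P)
  have hsum : ∑ s ∈ hfin.toFinset, weightedHomogeneousComponent u s P = P := by
    rw [← finsum_eq_sum _ hfin]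
    exact sum_weightedHomogeneousComponent u P
  classical
  let c : ℤ →₀ A := Finsupp.onFinset hfin.toFinset
    (fun s => aeval v (weightedHomogeneousComponent u s P)) (by
      intro s hs
      rw [Set.Finite.mem_toFinset, Function.mem_support]
      intro h0
      rw [h0, map_zero] at hs
      exact hs rfl)
  have hc : ∀ s, c s ∈ W s := fun s =>
    aeval_mem_gr h v u hv (weightedHomogeneousComponent_isWeightedHomogeneous s P)
  have hcs : (c.sum fun _ x => x) = aeval v P := by
    rw [Finsupp.onFinset_sum _ (fun _ => rfl)]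
    conv_rhs => rw [← hsum, map_sum]
  have hcu : cmp h (aeval v P) = c := cmp_uniq h _ c hc hcs
  have hz : ∀ s, s ≠ t → weightedHomogeneousComponent u s P = 0 := by
    intro s hs
    have h1 : c s = 0 := by
      rw [← hcu, cmp_of_mem h hP, Finsupp.single_apply, if_neg (Ne.symm hs)]
    have h2 : aeval v (weightedHomogeneousComponent u s P) = 0 := h1
    exact (injective_iff_map_eq_zero _).mp hi _ h2
  intro d hd
  by_contra hne
  have h3 := hz (Finsupp.weight u d) hne
  have h4 := congrArg (coeff d) h3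
  rw [coeff_weightedHomogeneousComponent, if_pos rfl, coeff_zero] at h4
  exact hd h4

theorem aeval_cons {n : ℕ} (y : A) (s : Fin n → A) (f : MvPolynomial (Fin (n + 1)) k) :
    aeval (Fin.cons y s : Fin (n + 1) → A) f =
      ∑ i ∈ Finset.range ((finSuccEquiv k n f).natDegree + 1),
        aeval s ((finSuccEquiv k n f).coeff i) * y ^ i := by
  have h1 : aeval (Fin.cons y s : Fin (n + 1) → A) f =
      (finSuccEquiv k n f).eval₂ (aeval s).toRingHom y := by
    induction f using MvPolynomial.induction_on with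
    | C a =>
      rw [algHom_C, finSuccEquiv_apply, eval₂Hom_C, RingHom.comp_apply, Polynomial.eval₂_C]
      exact (algHom_C _ _).symm
    | add p q hp hq => rw [map_add, map_add, Polynomial.eval₂_add, hp, hq]
    | mul_X p i hp =>
      rw [map_mul, map_mul, Polynomial.eval₂_mul, hp]
      congr 1
      rw [aeval_X]
      refine Fin.cases ?_ (fun j => ?_) i
      · rw [finSuccEquiv_X_zero, Polynomial.eval₂_X, Fin.cons_zero]
      · rw [finSuccEquiv_X_succ, Polynomial.eval₂_C, Fin.cons_succ]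
        exact (aeval_X _ _).symm
  rw [h1, Polynomial.eval₂_eq_sum_range]
  rfl

end general

theorem pf_INE (hVIP : T_VIP) (hPAI : T_PAI) (hNGW : T_NGW) : T_INE := by
  intro k _ _ _ W H y wy p q S α β k1 L _ _ Θ v w m K1 c κ ζ hy hPP hCht hEx hm
  have hGr : Gr W := hy.toGr
  obtain ⟨n, F, hn, hF, hF0⟩ := hNGW k W H y wy hy
  obtain ⟨N, P0, hP0⟩ := hPP.ge1 F
  have hp0 : p ≠ 0 := hPP.pg.ne_zero
  -- the order `S, p, q, H`
  have hai := hPAI k W H y wy p q S α β k1 0 hy hPP.toPr
  have hai' : AlgebraicIndependent k ![S, p, q, H] := by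
    have h1 := hai.comp ![3, 0, 1, 2] (by decide)
    have h2 : (![p, q, H, S] ∘ ![3, 0, 1, 2] : Fin 4 → Pol k 2) = ![S, p, q, H] := by
      funext i
      fin_cases i <;> rfl
    rwa [h2] at h1
  obtain ⟨P, hP⟩ : ∃ P : MvPolynomial (Fin 4) k, p ^ N * F = aeval ![S, p, q, H] P := by
    refine ⟨rename ![1, 2, 3, 0] P0, ?_⟩
    rw [hP0, aeval_rename]
    congr 1
    have : (![S, p, q, H] ∘ ![1, 2, 3, 0] : Fin 4 → Pol k 2) = ![p, q, H, S] := by
      funext i
      fin_cases i <;> rfl
    rw [this]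
  have hS := hPP.hS
  have hwt : p ^ N * F ∈ W (N * α + n) := by
    have h1 := hGr.mul _ _ _ _ (pow_mem_gr hGr hPP.hg N) hF
    rwa [nsmul_eq_mul] at h1
  have hne : p ^ N * F ≠ 0 := mul_ne_zero (pow_ne_zero _ hp0) hF0
  have hPne : P ≠ 0 := by
    rintro rfl
    rw [map_zero] at hP
    exact hne hP
  let u : Fin 4 → ℤ := ![k1 * α + (0 : ℕ) * β - β, α, β, 0]
  have hu : ∀ i, (![S, p, q, H] : Fin 4 → Pol k 2) i ∈ W (u i) := by
    intro i
    fin_cases i
    · exact hS
    · exact hPP.hg
    · exact hPP.hf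
    · exact hy.H0
  have hPwh : IsWeightedHomogeneous u P (N * α + n) :=
    wh_of_aeval_mem hGr _ u hu hai' (by rw [← hP]; exact hwt)
  set R := finSuccEquiv k 3 P with hR
  have hRne : R ≠ 0 := by
    rw [hR]
    intro h
    exact hPne ((finSuccEquiv k 3).injective (by rw [h, map_zero]))
  set D := R.natDegree with hD
  have hcons : (![S, p, q, H] : Fin 4 → Pol k 2) = Fin.cons S ![p, q, H] := rfl
  have hexp : p ^ N * F = ∑ i ∈ Finset.range (D + 1), aeval ![p, q, H] (R.coeff i) * S ^ i := by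
    rw [hP, hcons, aeval_cons]
  have hexp2 : (p * q) ^ N * F = ∑ i ∈ Finset.range (D + 1),
      aeval ![p, q, H] (X 1 ^ N * R.coeff i) * S ^ i := by
    have h1 : (p * q) ^ N * F = q ^ N * (p ^ N * F) := by
      rw [mul_pow]
      ring
    rw [h1, hexp, Finset.mul_sum]
    refine Finset.sum_congr rfl fun i _ => ?_
    rw [map_mul, map_pow, aeval_X]
    change q ^ N * (_ * _) = q ^ N * _ * _
    ring
  obtain ⟨j, hj, hK1, hineq⟩ := hVIP k W H y wy p q S α β k1 0 L Θ v w m K1 c κ ζ hy hPP.toPr hCht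
    hEx hm F N D (fun i => X 1 ^ N * R.coeff i) hexp2
  refine ⟨hK1, ?_⟩
  -- a monomial of the leading coefficient
  have hlead : R.coeff D ≠ 0 := by
    rw [hD]
    exact Polynomial.leadingCoeff_ne_zero.mpr hRne
  obtain ⟨e, he⟩ := exists_coeff_ne_zero hlead
  have he2 : coeff (Finsupp.cons D e) P ≠ 0 := by
    rw [← finSuccEquiv_coeff_coeff]
    exact he
  have hw := hPwh he2
  rw [Finsupp.weight_apply, Finsupp.sum_fintype _ _ (by simp), Fin.sum_univ_succ,
    Fin.sum_univ_three] at hw
  simp only [Finsupp.cons_zero, Finsupp.cons_succ] at hw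
  change D • (k1 * α + (0 : ℕ) * β - β) + (e 0 • α + e 1 • β + e 2 • (0 : ℤ)) = _ at hw
  simp only [nsmul_eq_mul, Nat.cast_zero, zero_mul, mul_zero, add_zero] at hw
  have hje : j ≤ e 0 := by
    obtain ⟨G, hG⟩ := hj
    have h1 : coeff (Finsupp.single 1 N + e) ((X 1 : MvPolynomial (Fin 3) k) ^ N * R.coeff D) =
        coeff e (R.coeff D) := by
      rw [X_pow_eq_monomial, coeff_monomial_mul, one_mul]
    have h2 : coeff (Finsupp.single 1 N + e) ((X 0 : MvPolynomial (Fin 3) k) ^ j * G) ≠ 0 := by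
      rw [← hG, h1]
      exact he
    rw [X_pow_eq_monomial, coeff_monomial_mul'] at h2
    have h3 : Finsupp.single 0 j ≤ Finsupp.single 1 N + e := by
      by_contra hcon
      rw [if_neg hcon] at h2
      exact h2 rfl
    have h4 := h3 0
    rw [Finsupp.single_eq_same, Finsupp.add_apply, Finsupp.single_apply, if_neg (by decide),
      zero_add] at h4
    exact h4
  have hα := hPP.pa
  have hβ := hPP.pb
  have hwf := hCht.wf
  have hje' : (j : ℤ) ≤ e 0 := by exact_mod_cast hje
  have h5 : α * ((j : ℤ) - N + k1 * D) < D * β := by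
    have h6 : α * (j : ℤ) ≤ α * e 0 := mul_le_mul_of_nonneg_left hje' hα.le
    have h7 : 0 ≤ (e 1 : ℤ) * β := by positivity
    nlinarith
  have hm0 : (0 : ℤ) < m := by omega
  rcases Nat.eq_zero_or_pos D with hD0 | hD0
  · exfalso
    rw [hD0] at hineq h5
    simp only [Nat.cast_zero, zero_mul, mul_zero, add_zero] at hineq h5
    have h8 : 0 ≤ (j : ℤ) - N := by
      by_contra hcon
      push Not at hcon
      nlinarith
    nlinarith
  · have hD' : (0 : ℤ) < D := by exact_mod_cast hD0
    have h9 : (D : ℤ) * (α * (w * (((m : ℤ) - Nat.gcd m K1) * K1 + Nat.gcd m K1 - 1) - 1)) <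
        D * ((m : ℤ) ^ 2 * w) := by
      calc (D : ℤ) * (α * (w * (((m : ℤ) - Nat.gcd m K1) * K1 + Nat.gcd m K1 - 1) - 1))
          = α * (D * (w * (((m : ℤ) - Nat.gcd m K1) * K1 + Nat.gcd m K1 - 1) - 1)) := by ring
        _ ≤ α * (m * ((j : ℤ) - N + k1 * D)) := mul_le_mul_of_nonneg_left hineq hα.le
        _ = m * (α * ((j : ℤ) - N + k1 * D)) := by ring
        _ < m * (D * β) := mul_lt_mul_of_pos_left h5 hm0
        _ = D * ((m : ℤ) ^ 2 * w) := by rw [hwf]; ring
    exact lt_of_mul_lt_mul_left h9 hD'.le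

end Pool.Agent.H15.SYA
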