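import Pool.Agent.H19.SYA.TB
import Pool.Agent.H2.ST.Basic

/-!
# Row NGW: negative weights exist
-/

set_option autoImplicit false

namespace Pool.Agent.H15.SYA

open MvPolynomial Pool.Agent.H2.ST Pool.Agent.H15.TG Pool.Agent.H19.SYA

theorem pf_NGW : T_NGW := by
  intro k _ _ W H y w hy
  refine ⟨-w 0, y (Sum.inr 0), by have := hy.wp 0; omega, hy.ad.hr 0, ?_⟩
  intro h0
  have h := hy.ad.lr 0 0
  rw [h0, br_zero, map_zero, if_pos rfl] at h
  exact zero_ne_one h

end Pool.Agent.H15.SYA
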